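import Pool.Agent.LibX1.Sys

/-!
Classes of algebraic cycles of codimension `0` and `1` on the strata, and the consequences of the
Hodge index theorem in the row of weight `2`.
-/

set_option autoImplicit false

namespace Pool.Agent.LibX1C

open Pool.Agent.LibX1

/-- `A k 0` and `A k 1` are the spaces of classes of cycles of codimension `0` and `1` with rational
coefficients in `H^0 (Y^(k+1))` and `H^2 (Y^(k+1))`, `Y` of dimension `n`; `L` is the multiplication
with the hyperplane class and, for classes `x`, `y` of even degrees in `Y^(k+1)`, `I x y` is the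
integral of `x y L^r`, where `r` is the exponent for which the product is of top degree (and `0` if
there is none); on classes of odd degree `I` is `0`. -/
structure Cycles {q : ℕ} {K H : Type} [Field K] [CharZero K] [AddCommGroup H] [Module K H]
    [Module ℚ H] (n : ℕ) (Y : Strata q K H) (L : Module.End K H) (I : H →ₗ[K] H →ₗ[K] K)
    (A : ℕ → ℕ → Submodule ℚ H) : Prop where
  fg : ∀ k, (A k 0).FG
  deg : ∀ k j, ∀ x ∈ A k j, x ∈ Y.gr k (2 * j)
  rho : ∀ k j, ∀ x ∈ A k j, Y.rho x ∈ A (k + 1) j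
  gamma : ∀ k, ∀ x ∈ A (k + 1) 0, Y.gamma x ∈ A k 1
  hyp : ∀ k, ∀ x ∈ A k 0, L x ∈ A k 1
  rho_hyp : ∀ x, Y.rho (L x) = L (Y.rho x)
  rat : ∀ k i j, ∀ x ∈ A k i, ∀ y ∈ A k j, ∃ r : ℚ, I x y = r
  symm : ∀ x y, I x y = I y x
  adj : ∀ x y, I (Y.rho x) y = I x (Y.gamma y)
  hyp_adj : ∀ k j, k + j + 1 ≤ n → ∀ x ∈ A k 0, ∀ y ∈ A k j, I (L x) y = I x y
  pos : ∀ k ≤ n, ∀ x ∈ A k 0, x ≠ 0 → ∃ r : ℚ, 0 < r ∧ I x x = r
  /-- the Hodge index theorem for divisors -/
  hodge : ∀ k, k + 2 ≤ n → ∀ x ∈ A k 1, (∀ y ∈ A k 0, I x y = 0) → x ≠ 0 →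
    ∃ r : ℚ, r < 0 ∧ I x x = r

/-- A functional which vanishes on the kernel of `G` is represented by the positive form. -/
theorem exists_repr' {E F : Type*} [AddCommGroup E] [Module ℚ E] [FiniteDimensional ℚ E]
    [AddCommGroup F] [Module ℚ F] (G : E →ₗ[ℚ] F) (b : F →ₗ[ℚ] F →ₗ[ℚ] ℚ)
    (hb : ∀ x, G x ≠ 0 → b (G x) (G x) ≠ 0) (α : E →ₗ[ℚ] ℚ) (hα : ∀ v, G v = 0 → α v = 0) :
    ∃ g, ∀ v, α v = b (G v) (G g) := by
  let Ψ : E →ₗ[ℚ] Module.Dual ℚ E :=
    { toFun := fun v => (b (G v)) ∘ₗ G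
      map_add' := by
        intro x y
        ext z
        simp
      map_smul' := by
        intro c x
        ext z
        simp }
  have hΨ : ∀ v g, Ψ v g = b (G v) (G g) := fun _ _ => rfl
  have hmem : α ∈ (LinearMap.ker Ψ).dualAnnihilator := by
    rw [Submodule.mem_dualAnnihilator]
    intro v hv
    apply hα
    by_contra h0
    have h1 := hb v h0
    rw [← hΨ, LinearMap.mem_ker.1 hv] at h1
    simp at h1
  rw [← LinearMap.range_dualMap_eq_dualAnnihilator_ker] at hmem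
  obtain ⟨φ, hφ⟩ := hmem
  obtain ⟨g, hg⟩ := (Module.evalEquiv ℚ E).surjective φ
  refine ⟨g, fun v => ?_⟩
  rw [← hφ, ← hg]
  rfl

/-- The elements of the `K`-span of a `ℚ`-space in a basis of `K` over `ℚ`. -/
theorem span_repr {K H ι : Type*} [Field K] [CharZero K] [AddCommGroup H] [Module K H]
    [Module ℚ H] [IsScalarTower ℚ K H] (b : Module.Basis ι ℚ K) (B : Submodule ℚ H) {y : H}
    (hy : y ∈ Submodule.span K (B : Set H)) :
    ∃ (s : Finset ι) (a : ι → H), (∀ i, a i ∈ B) ∧ y = ∑ i ∈ s, b i • a i := by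
  classical
  have hadd : ∀ y y' : H, (∃ (s : Finset ι) (a : ι → H), (∀ i, a i ∈ B) ∧ y = ∑ i ∈ s, b i • a i) →
      (∃ (s : Finset ι) (a : ι → H), (∀ i, a i ∈ B) ∧ y' = ∑ i ∈ s, b i • a i) →
      ∃ (s : Finset ι) (a : ι → H), (∀ i, a i ∈ B) ∧ y + y' = ∑ i ∈ s, b i • a i := by
    rintro _ _ ⟨s, a, ha, rfl⟩ ⟨s', a', ha', rfl⟩
    refine ⟨s ∪ s', fun i => (if i ∈ s then a i else 0) + (if i ∈ s' then a' i else 0),
      fun i => B.add_mem ?_ ?_, ?_⟩
    · split_ifs
      · exact ha i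
      · exact B.zero_mem
    · split_ifs
      · exact ha' i
      · exact B.zero_mem
    · have h1 : ∀ i ∈ s ∪ s', b i • ((if i ∈ s then a i else 0) + (if i ∈ s' then a' i else 0)) =
          (if i ∈ s then b i • a i else 0) + (if i ∈ s' then b i • a' i else 0) := by
        intro i _
        rw [smul_add, smul_ite, smul_zero, smul_ite, smul_zero]
      rw [Finset.sum_congr rfl h1, Finset.sum_add_distrib, ← Finset.sum_filter,
        ← Finset.sum_filter]
      congr 1
      · congr 1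
        ext i
        simp
      · congr 1
        ext i
        simp
  have hone : ∀ (k : K), ∀ x ∈ B,
      ∃ (s : Finset ι) (a : ι → H), (∀ i, a i ∈ B) ∧ k • x = ∑ i ∈ s, b i • a i := by
    intro k x hx
    refine ⟨(b.repr k).support, fun i => b.repr k i • x, fun i => B.smul_mem _ hx, ?_⟩
    have h0 : k = ∑ i ∈ (b.repr k).support, b.repr k i • b i := by
      conv_lhs => rw [← b.linearCombination_repr k]
      rfl
    conv_lhs => rw [h0, Finset.sum_smul]
    apply Finset.sum_congr rfl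
    intro i _
    change (b.repr k i • b i) • x = b i • ((b.repr k i) • x)
    rw [smul_assoc, ← algebraMap_smul K (b.repr k i) (b i • x),
      ← algebraMap_smul K (b.repr k i) x, smul_comm]
  induction hy using Submodule.span_induction with
  | mem y hy =>
    have h1 := hone 1 y hy
    rwa [one_smul] at h1
  | zero => exact ⟨∅, fun _ => 0, fun _ => B.zero_mem, by simp⟩
  | add y y' _ _ h h' => exact hadd _ _ h h'
  | smul k y _ h =>
    obtain ⟨s, a, ha, rfl⟩ := h
    rw [Finset.smul_sum]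
    have h2 : ∀ s : Finset ι, ∃ (t : Finset ι) (c : ι → H), (∀ i, c i ∈ B) ∧
        ∑ i ∈ s, k • b i • a i = ∑ i ∈ t, b i • c i := by
      intro s
      induction s using Finset.induction_on with
      | empty => exact ⟨∅, fun _ => 0, fun _ => B.zero_mem, by simp⟩
      | insert i s hi ih =>
        rw [Finset.sum_insert hi]
        apply hadd _ _ ?_ ih
        rw [smul_smul]
        exact hone _ _ (ha i)
    exact h2 s

namespace Cycles

variable {q : ℕ} {K H : Type} [Field K] [CharZero K] [AddCommGroup H] [Module K H]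
  [Module ℚ H] [IsScalarTower ℚ K H] {n : ℕ} {Y : Strata q K H} {L : Module.End K H}
  {I : H →ₗ[K] H →ₗ[K] K} {A : ℕ → ℕ → Submodule ℚ H} (h : Cycles n Y L I A)

include h

/-- Functionals on `A k 0` which vanish on the kernel of the restriction map. -/
theorem repr {k : ℕ} (hk : k + 1 ≤ n) (α : H →ₗ[K] K)
    (hrat : ∀ x ∈ A k 0, ∃ r : ℚ, α x = r) (h0 : ∀ x ∈ A k 0, Y.rho x = 0 → α x = 0) :
    ∃ g ∈ A k 0, ∀ x ∈ A k 0, α x = I (Y.rho x) (Y.rho g) := by
  obtain ⟨σ, hσ⟩ := LinearMap.exists_leftInverse_of_injective (Algebra.linearMap ℚ K)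
    (LinearMap.ker_eq_bot.2 (algebraMap ℚ K).injective)
  have hσ' : ∀ r : ℚ, σ (r : K) = r := by
    intro r
    have := LinearMap.congr_fun hσ r
    simpa using this
  have : FiniteDimensional ℚ (A k 0) := Module.Finite.iff_fg.2 (h.fg k)
  let G : A k 0 →ₗ[ℚ] H := (Y.rho.restrictScalars ℚ) ∘ₗ (A k 0).subtype
  have hG : ∀ x : A k 0, G x = Y.rho x := fun _ => rfl
  let b : H →ₗ[ℚ] H →ₗ[ℚ] ℚ := LinearMap.mk₂ ℚ (fun x y => σ (I x y))
    (by intro x y z; simp)
    (by
      intro c x y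
      have h1 : I (c • x) y = c • I x y := by
        rw [← algebraMap_smul K c x, map_smul, LinearMap.smul_apply, algebraMap_smul]
      rw [h1, map_smul])
    (by intro x y z; simp)
    (by
      intro c x y
      have h1 : I x (c • y) = c • I x y := by
        rw [← algebraMap_smul K c y, map_smul, algebraMap_smul]
      rw [h1, map_smul])
  have hb : ∀ x y, b x y = σ (I x y) := fun _ _ => rfl
  obtain ⟨g, hg⟩ := exists_repr' G b (by
    intro x hx
    obtain ⟨r, hr, hr'⟩ := h.pos (k + 1) hk (Y.rho x) (h.rho k 0 x x.2) hx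
    rw [hb, hG, hr', hσ']
    exact hr.ne') (σ ∘ₗ (α.restrictScalars ℚ) ∘ₗ (A k 0).subtype) (by
    intro v hv
    have h1 := h0 v v.2 hv
    simp [h1])
  refine ⟨g, g.2, fun x hx => ?_⟩
  have h1 := hg ⟨x, hx⟩
  obtain ⟨r, hr⟩ := hrat x hx
  obtain ⟨r', hr'⟩ := h.rat (k + 1) 0 0 (Y.rho x) (h.rho k 0 x hx) (Y.rho g) (h.rho k 0 g g.2)
  have h2 : σ (α x) = σ (I (Y.rho x) (Y.rho g)) := h1
  rw [hr, hr', hσ', hσ'] at h2
  rw [hr, hr', h2]

omit [IsScalarTower ℚ K H] in
theorem anti0 {k : ℕ} {x : H} (hx : x ∈ A (k + 1) 0) :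
    Y.rho (Y.gamma x) + Y.gamma (Y.rho x) = 0 :=
  Y.anti k 0 x (h.deg (k + 1) 0 x hx)

/-- The row of weight `2`, rational coefficients. -/
theorem row2 {t : ℕ} (ht : t + 3 ≤ n) {y : H} (hy : y ∈ A t 1)
    (hy0 : ∀ y' ∈ A t 1, I (Y.rho y') (Y.rho y) = 0) :
    ∃ f ∈ A (t + 2) 0, Y.rho f = 0 ∧ Y.gamma f = Y.rho y := by
  have hρy := h.rho t 1 y hy
  -- the key identity: `rho y` is orthogonal to the cocycles
  have key : ∀ v ∈ A (t + 1) 0, Y.rho v = 0 → I v (Y.rho y) = 0 := by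
    intro v hv hv0
    obtain ⟨u, hu, hu1⟩ := h.repr (k := t) (by omega) ((I.flip v) ∘ₗ Y.rho)
      (fun x hx => h.rat (t + 1) 0 0 _ (h.rho t 0 x hx) v hv)
      (fun x _ hx => by rw [LinearMap.comp_apply, hx, map_zero])
    have hu' : ∀ w ∈ A t 0, I (Y.rho w) (v - Y.rho u) = 0 := by
      intro w hw
      have h1 := hu1 w hw
      rw [LinearMap.comp_apply, LinearMap.flip_apply] at h1
      rw [map_sub, h1, sub_self]
    have hρu := h.rho t 0 u hu
    obtain ⟨v0, hv0'⟩ : ∃ v0, v0 = v - Y.rho u := ⟨_, rfl⟩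
    rw [← hv0'] at hu'
    have hv0A : v0 ∈ A (t + 1) 0 := by
      rw [hv0']
      exact (A (t + 1) 0).sub_mem hv hρu
    have hρv0 : Y.rho v0 = 0 := by
      rw [hv0', map_sub, hv0, Y.rho_rho, sub_zero]
    -- `c = gamma v0` is primitive with square zero
    have hc : Y.gamma v0 = 0 := by
      by_contra h0
      obtain ⟨r, hr, hr'⟩ := h.hodge t (by omega) _ (h.gamma t v0 hv0A) (fun w hw => by
        rw [h.symm, ← h.adj]
        exact hu' w hw) h0
      have h2 : I (Y.gamma v0) (Y.gamma v0) = 0 := by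
        rw [← h.adj]
        have h3 := h.anti0 hv0A
        rw [hρv0, map_zero, add_zero] at h3
        rw [h3]
        simp
      rw [h2] at hr'
      have h4 : r = 0 := by exact_mod_cast hr'.symm
      exact hr.ne h4
    have e1 : I v0 (Y.rho y) = 0 := by
      rw [h.symm, h.adj, hc, map_zero]
    have e2 : I (Y.rho u) (Y.rho y) = 0 := by
      rw [← h.hyp_adj (t + 1) 1 (by omega) _ hρu _ hρy, ← h.rho_hyp]
      exact hy0 _ (h.hyp t u hu)
    have e3 : v = v0 + Y.rho u := by rw [hv0']; abel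
    rw [e3, map_add, LinearMap.add_apply, e1, e2, add_zero]
  obtain ⟨g, hg, hg1⟩ := h.repr (k := t + 1) (by omega) (I (Y.rho y))
    (fun x hx => h.rat (t + 1) 1 0 _ hρy x hx) (fun x hx hx0 => by
      rw [h.symm]
      exact key x hx hx0)
  obtain ⟨f, hf⟩ : ∃ f, f = Y.rho g := ⟨_, rfl⟩
  have hfA : f ∈ A (t + 2) 0 := by
    rw [hf]
    exact h.rho (t + 1) 0 g hg
  have hρf : Y.rho f = 0 := by rw [hf, Y.rho_rho]
  refine ⟨f, hfA, hρf, ?_⟩
  by_contra h0
  have h0' : Y.rho y - Y.gamma f ≠ 0 := fun h => h0 (sub_eq_zero.1 h).symm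
  have hγf := h.gamma (t + 1) f hfA
  obtain ⟨r, hr, hr'⟩ := h.hodge (t + 1) (by omega) _ ((A (t + 1) 1).sub_mem hρy hγf)
    (fun v hv => by
      rw [map_sub, LinearMap.sub_apply, hg1 v hv, h.symm (Y.gamma f) v, ← h.adj, hf, sub_self]) h0'
  have e0 : I (Y.rho y) (Y.rho y) = 0 := hy0 y hy
  have e1 : I (Y.rho y) (Y.gamma f) = 0 := by
    rw [← h.adj, Y.rho_rho, map_zero, LinearMap.zero_apply]
  have e2 : I (Y.gamma f) (Y.gamma f) = 0 := by
    rw [← h.adj]
    have h3 := h.anti0 (k := t + 1) hfA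
    rw [hρf, map_zero, add_zero] at h3
    rw [h3, map_zero, LinearMap.zero_apply]
  have e3 : I (Y.gamma f) (Y.rho y) = 0 := by
    rw [h.symm]
    exact e1
  simp only [map_sub, LinearMap.sub_apply, e0, e1, e2, e3, sub_self] at hr'
  have h4 : r = 0 := by exact_mod_cast hr'.symm
  exact hr.ne h4

/-- The row of weight `2`. -/
theorem row2K {t : ℕ} (ht : t + 3 ≤ n) {y : H}
    (hy : y ∈ Submodule.span K (A t 1 : Set H))
    (hy0 : ∀ y' ∈ A t 1, I (Y.rho y') (Y.rho y) = 0) :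
    ∃ f ∈ Submodule.span K (A (t + 2) 0 : Set H), Y.rho f = 0 ∧ Y.gamma f = Y.rho y := by
  classical
  let b := Module.Basis.ofVectorSpace ℚ K
  obtain ⟨s, a, ha, rfl⟩ := span_repr b (A t 1) hy
  have key : ∀ i ∈ s, ∀ x ∈ A t 1, I (Y.rho x) (Y.rho (a i)) = 0 := by
    intro i hi x hx
    choose r hr using fun i => h.rat (t + 1) 1 1 _ (h.rho t 1 x hx) _ (h.rho t 1 _ (ha i))
    have h1 := hy0 x hx
    have h2 : ∑ i ∈ s, r i • b i = 0 := by
      rw [← h1, map_sum, map_sum]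
      apply Finset.sum_congr rfl
      intro i _
      rw [map_smul, map_smul, hr, Algebra.smul_def, smul_eq_mul, mul_comm]
      rfl
    rw [hr, (linearIndependent_iff'.1 b.linearIndependent) s r h2 i hi, Rat.cast_zero]
  have key2 : ∀ i, ∃ f ∈ A (t + 2) 0, i ∈ s → Y.rho f = 0 ∧ Y.gamma f = Y.rho (a i) := by
    intro i
    by_cases hi : i ∈ s
    · obtain ⟨f, hf, h1, h2⟩ := h.row2 ht (ha i) (fun x hx => by
        exact key i hi x hx)
      exact ⟨f, hf, fun _ => ⟨h1, h2⟩⟩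
    · exact ⟨0, (A (t + 2) 0).zero_mem, fun h => absurd h hi⟩
  choose f hf1 hf2 using key2
  refine ⟨∑ i ∈ s, b i • f i, ?_, ?_, ?_⟩
  · exact Submodule.sum_mem _ fun i _ => Submodule.smul_mem _ _ (Submodule.subset_span (hf1 i))
  · rw [map_sum]
    apply Finset.sum_eq_zero
    intro i hi
    rw [map_smul, (hf2 i hi).1, smul_zero]
  · rw [map_sum, map_sum]
    apply Finset.sum_congr rfl
    intro i hi
    rw [map_smul, map_smul, (hf2 i hi).2]

end Cycles

end Pool.Agent.LibX1C
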