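import Pool.Agent.LibX1C.Cycles
import Pool.Agent.LibX1F.Forest

/-!
Transcendental classes of degree `2` on the components which are compared by similitudes on the
double surfaces.
-/

set_option autoImplicit false

namespace Pool.Agent.LibX1C

open Pool.Agent.LibX1

/-- `U i` is a space of classes in `H^2 (Y_i)`, `Y_i` (`i < c`) the components; together with the
classes of divisors they span `H^2 (Y^(1))`. `res e x` is the component on the surface `S_e`
of the restriction of `x`, `S_e` a connected component of the intersection of `Y_i` and `Y_j`,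
`i = a e < j = b e`. On each `U i` the map `res e` multiplies the form `g` by the rational number
`μ e i ≥ 0` (and is `0` if `μ e i = 0`). If `μ e i` and `μ e j` are both not `0`, the classes on
`S_e` which come from `U i` also come from `U j`, and these surfaces form a forest. -/
structure Transc {q : ℕ} {K H : Type} [Field K] [CharZero K] [AddCommGroup H] [Module K H]
    [Module ℚ H] (Y : Strata q K H) (I : H →ₗ[K] H →ₗ[K] K) (A : ℕ → ℕ → Submodule ℚ H)
    {c : ℕ} (U : Fin c → Submodule K H) (g : H →ₗ[K] H →ₗ[K] K)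
    {E : Type} [Fintype E] (a b : E → Fin c) (res : E → Module.End K H) (μ : E → Fin c → ℚ) :
    Prop where
  deg : ∀ i, U i ≤ Y.gr 0 2
  split : Y.gr 0 2 ≤ Submodule.span K (A 0 1 : Set H) ⊔ ⨆ i, U i
  alg : ∀ i, ∀ x ∈ U i, ∀ y ∈ A 1 1, I (Y.rho x) y = 0
  rho : ∀ x ∈ Y.gr 0 2, Y.rho x = ∑ e, res e x
  orth : ∀ e e', e ≠ e' → ∀ x y, I (res e x) (res e' y) = 0
  nondeg : ∀ i, ∀ y ∈ U i, (∀ x ∈ U i, g x y = 0) → y = 0
  sim : ∀ e i, ∀ x ∈ U i, ∀ y ∈ U i, I (res e x) (res e y) = μ e i * g x y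
  nonneg : ∀ e i, 0 ≤ μ e i
  zero : ∀ e i, μ e i = 0 → ∀ x ∈ U i, res e x = 0
  lt : ∀ e, a e < b e
  ends : ∀ e i, μ e i ≠ 0 → i = a e ∨ i = b e
  sub : ∀ e, μ e (a e) ≠ 0 → μ e (b e) ≠ 0 → ∀ x ∈ U (a e), ∃ y ∈ U (b e), res e y = res e x
  forest : ∀ e e', μ e (a e) ≠ 0 → μ e (b e) ≠ 0 → μ e' (a e') ≠ 0 → μ e' (b e') ≠ 0 →
    b e = b e' → e = e'

namespace Transc

variable {q : ℕ} {K H : Type} [Field K] [CharZero K] [AddCommGroup H] [Module K H]
  [Module ℚ H] {n : ℕ} {Y : Strata q K H} {L : Module.End K H}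
  {I : H →ₗ[K] H →ₗ[K] K} {A : ℕ → ℕ → Submodule ℚ H} {c : ℕ} {U : Fin c → Submodule K H}
  {g : H →ₗ[K] H →ₗ[K] K} {E : Type} [Fintype E] {a b : E → Fin c} {res : E → Module.End K H}
  {μ : E → Fin c → ℚ}

/-- The transcendental part of the row of weight `2`. -/
theorem rho_eq_zero (h : Transc Y I A U g a b res μ) (u : ∀ i, U i)
    (hu : ∀ z : ∀ i, U i, I (Y.rho (∑ i, (z i : H))) (Y.rho (∑ i, (u i : H))) = 0) :
    Y.rho (∑ i, (u i : H)) = 0 := by
  classical
  -- the component on `S_e`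
  have hres : ∀ (z : ∀ i, U i) (e : E), res e (∑ i, (z i : H)) =
      res e (z (a e)) + res e (z (b e)) := by
    intro z e
    have hne : a e ≠ b e := (h.lt e).ne
    rw [map_sum, ← Finset.sum_subset (Finset.subset_univ {a e, b e}), Finset.sum_pair hne]
    intro i _ hi
    apply h.zero e i ?_ _ (z i).2
    by_contra h0
    rcases h.ends e i h0 with h1 | h1
    · exact hi (by rw [h1]; simp)
    · exact hi (by rw [h1]; simp)
  have hrho : ∀ z : ∀ i, U i, Y.rho (∑ i, (z i : H)) =
      ∑ e, (res e (z (a e)) + res e (z (b e))) := by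
    intro z
    rw [h.rho _ (Submodule.sum_mem _ fun i _ => h.deg i (z i).2)]
    exact Finset.sum_congr rfl fun e _ => hres z e
  have key := Pool.Agent.LibX1F.forest a b h.lt (fun i => U i) (fun _ => H)
    (fun i => g.domRestrict₁₂ (U i) (U i))
    (fun i y hy => Subtype.ext (h.nondeg i y y.2 (fun x hx => hy ⟨x, hx⟩)))
    (fun _ => I) (fun e => (res e).domRestrict (U (a e)))
    (fun e => -(res e).domRestrict (U (b e))) (fun e => μ e (a e)) (fun e => μ e (b e))
    (fun e => h.nonneg e _) (fun e => h.nonneg e _)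
    (fun e x y => h.sim e _ x x.2 y y.2)
    (fun e x y => by
      have h1 : I (-(res e x)) (-(res e y)) = μ e (b e) * g x y := by
        rw [map_neg, map_neg, LinearMap.neg_apply, neg_neg]
        exact h.sim e _ x x.2 y y.2
      exact h1)
    (fun e h0 => by
      ext x
      exact h.zero e _ h0 x x.2)
    (fun e h0 => by
      ext x
      rw [LinearMap.neg_apply, LinearMap.zero_apply, neg_eq_zero]
      exact h.zero e _ h0 x x.2)
    (fun e h1 h2 x => by
      obtain ⟨y, hy, hxy⟩ := h.sub e h1 h2 x x.2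
      refine ⟨⟨-y, (U (b e)).neg_mem hy⟩, ?_⟩
      rw [LinearMap.neg_apply, LinearMap.domRestrict_apply, LinearMap.domRestrict_apply]
      show -(res e (-y)) = res e x
      rw [map_neg, neg_neg, hxy])
    (fun e e' h1 h2 h3 h4 h5 => h.forest e e' h1 h2 h3 h4 h5) u
    (fun z => by
      rw [← hu z, hrho, hrho, map_sum I, LinearMap.sum_apply]
      apply Finset.sum_congr rfl
      intro e _
      rw [map_sum, Finset.sum_eq_single e]
      · have h1 : ∀ z : ∀ i, U i, (res e).domRestrict (U (a e)) (z (a e)) -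
            (-(res e).domRestrict (U (b e))) (z (b e)) = res e (z (a e)) + res e (z (b e)) := by
          intro z
          rw [LinearMap.neg_apply, sub_neg_eq_add]
          rfl
        rw [h1, h1]
      · intro e' _ hne
        have h1 := h.orth e e' (Ne.symm hne)
        simp [h1]
      · intro h0
        exact absurd (Finset.mem_univ e) h0)
  rw [hrho]
  apply Finset.sum_eq_zero
  intro e _
  have h1 := key e
  rw [LinearMap.neg_apply, LinearMap.domRestrict_apply, LinearMap.domRestrict_apply] at h1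
  rw [h1, neg_add_cancel]

/-- The row of weight `2`. -/
theorem row2 [IsScalarTower ℚ K H] (hn : 3 ≤ n) (hA : Cycles n Y L I A)
    (h : Transc Y I A U g a b res μ)
    {y : H} (hy : y ∈ Y.gr 0 2) (h0 : Y.gamma (Y.rho y) = 0) :
    ∃ f ∈ Y.gr 2 0, Y.rho f = 0 ∧ Y.gamma f = Y.rho y := by
  have horth : ∀ x, I (Y.rho x) (Y.rho y) = 0 := by
    intro x
    rw [hA.adj, h0, map_zero]
  obtain ⟨D, hD, w, hw, hDw⟩ := Submodule.mem_sup.1 (h.split hy)
  obtain ⟨u, hu⟩ : ∃ u : ∀ i, U i, ∑ i, (u i : H) = w := by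
    have h1 := (Submodule.mem_iSup_iff_exists_finsupp U w).1 hw
    obtain ⟨f, hf, hf2⟩ := h1
    refine ⟨fun i => ⟨f i, hf i⟩, ?_⟩
    rw [← hf2, Finsupp.sum_fintype _ _ (fun _ => rfl)]
  have hT : ∀ z : ∀ i, U i, I (Y.rho (∑ i, (z i : H))) (Y.rho D) = 0 := by
    intro z
    rw [map_sum, map_sum, LinearMap.sum_apply]
    apply Finset.sum_eq_zero
    intro i _
    have h1 : Submodule.span K (A 0 1 : Set H) ≤ LinearMap.ker (I (Y.rho (z i)) ∘ₗ Y.rho) := by
      rw [Submodule.span_le]
      intro x hx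
      rw [SetLike.mem_coe, LinearMap.mem_ker, LinearMap.comp_apply]
      exact h.alg i _ (z i).2 _ (hA.rho 0 1 x hx)
    exact h1 hD
  have hρw : Y.rho w = 0 := by
    rw [← hu]
    apply h.rho_eq_zero u
    intro z
    have h1 := horth (∑ i, (z i : H))
    rw [← hDw, map_add, map_add, hT, zero_add, ← hu] at h1
    exact h1
  have hρy : Y.rho y = Y.rho D := by rw [← hDw, map_add, hρw, add_zero]
  obtain ⟨f, hf, h1, h2⟩ := hA.row2K (t := 0) (by omega) hD (fun x _ => by
    rw [← hρy]
    exact horth x)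
  refine ⟨f, ?_, h1, by rw [h2, hρy]⟩
  have h3 : Submodule.span K (A 2 0 : Set H) ≤ Y.gr 2 0 := by
    rw [Submodule.span_le]
    intro x hx
    exact hA.deg 2 0 x hx
  exact h3 hf

end Transc

end Pool.Agent.LibX1C
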